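import Pool.Agent.Work.MP_63c7e0_lc.Defs
import Pool.Agent.Lib.ZFModel.Cohen
import Mathlib.Data.Set.Finite.Lattice
import Mathlib.Data.Finite.Defs
import Mathlib.Order.Interval.Finset.Nat

/-! Elementary set theory inside a model of ZF. -/

namespace Pool.Agent.Work.MP_63c7e0_lc
open Pool.Agent.Lib.ZFModel

variable {M : Type 1} {E : M → M → Prop}

set_option synthInstance.maxSize 100000

section dfn
variable [Nonempty M] (a b c : (ℕ → M) → M) [Trm a] [Trm b] [Trm c]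

instance : Dfn E (fun v => Sub E (a v) (b v)) := by unfold Sub; infer_instance
instance : Dfn E (fun v => IsEmptySet E (a v)) := by unfold IsEmptySet; infer_instance
instance : Dfn E (fun v => IsSing E (a v) (b v)) := by unfold IsSing; infer_instance
instance : Dfn E (fun v => IsPair E (a v) (b v) (c v)) := by unfold IsPair; infer_instance
instance : Dfn E (fun v => App E (a v) (b v) (c v)) := by unfold App; infer_instance
instance : Dfn E (fun v => IsFun E (a v) (b v) (c v)) := by unfold IsFun; infer_instance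
instance : Dfn E (fun v => IsBij E (a v) (b v) (c v)) := by unfold IsBij; infer_instance
instance : Dfn E (fun v => IsInductive E (a v)) := by unfold IsInductive; infer_instance
instance : Dfn E (fun v => IsOmega E (a v)) := by unfold IsOmega; infer_instance
instance : Dfn E (fun v => IsFin E (a v)) := by unfold IsFin; infer_instance

end dfn

variable (zf : IsZF E)
include zf

theorem exists_sing (a : M) : ∃ s, IsSing E s a := by
  obtain ⟨c, hc⟩ := zf.pairing a a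
  exact ⟨c, fun x => by rw [hc, or_self]⟩

theorem exists_empty : ∃ e, IsEmptySet E e := by
  obtain ⟨w, ⟨e, _, he⟩, _⟩ := zf.infinity
  exact ⟨e, he⟩

theorem empty_unique {e e' : M} (h : IsEmptySet E e) (h' : IsEmptySet E e') : e = e' :=
  zf.extensionality _ _ fun x => ⟨fun hx => absurd hx (h x), fun hx => absurd hx (h' x)⟩

theorem sing_unique {s s' a : M} (h : IsSing E s a) (h' : IsSing E s' a) : s = s' :=
  zf.extensionality _ _ fun x => (h x).trans (h' x).symm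

theorem not_mem_self (a : M) : ¬ E a a := by
  intro h
  obtain ⟨s, hs⟩ := exists_sing zf a
  obtain ⟨x, hx, h1⟩ := zf.foundation s ⟨a, (hs a).2 rfl⟩
  rw [(hs x).1 hx] at h1
  exact h1 a h ((hs a).2 rfl)

theorem exists_pair (a b : M) : ∃ p, IsPair E p a b := by
  obtain ⟨s, hs⟩ := exists_sing zf a
  obtain ⟨t, ht⟩ := zf.pairing a b
  obtain ⟨p, hp⟩ := zf.pairing s t
  refine ⟨p, fun z => (hp z).trans ⟨?_, ?_⟩⟩
  · rintro (rfl | rfl)
    · exact Or.inl hs
    · exact Or.inr ht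
  · rintro (h | h)
    · exact Or.inl (sing_unique zf h hs)
    · exact Or.inr (zf.extensionality _ _ fun x => (h x).trans (ht x).symm)

theorem pair_unique {p q a b : M} (h : IsPair E p a b) (h' : IsPair E q a b) : p = q :=
  zf.extensionality _ _ fun x => (h x).trans (h' x).symm

theorem pair_inj {p a b a' b' : M} (h : IsPair E p a b) (h' : IsPair E p a' b') :
    a = a' ∧ b = b' := by
  have h1 : a = a' := by
    obtain ⟨s, hs⟩ := exists_sing zf a
    rcases (h' s).1 ((h s).2 (Or.inl hs)) with h2 | h2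
    · exact (h2 a).1 ((hs a).2 rfl)
    · exact ((hs a').1 ((h2 a').2 (Or.inl rfl))).symm
  subst h1
  refine ⟨rfl, ?_⟩
  have key : ∀ {b b' : M}, IsPair E p a b → IsPair E p a b' → b = a ∨ b = b' := by
    intro b b' h h'
    obtain ⟨t, ht⟩ := zf.pairing a b
    rcases (h' t).1 ((h t).2 (Or.inr ht)) with h2 | h2
    · exact Or.inl ((h2 b).1 ((ht b).2 (Or.inr rfl)))
    · exact (h2 b).1 ((ht b).2 (Or.inr rfl))
  rcases key h h' with h2 | h2
  · rcases key h' h with h3 | h3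
    · exact h2.trans h3.symm
    · exact h3.symm
  · exact h2

theorem exists_union (a b : M) : ∃ c, ∀ x, E x c ↔ E x a ∨ E x b := by
  obtain ⟨p, hp⟩ := zf.pairing a b
  obtain ⟨c, hc⟩ := zf.union p
  refine ⟨c, fun x => (hc x).trans ⟨?_, ?_⟩⟩
  · rintro ⟨y, hy, hx⟩
    rcases (hp y).1 hy with rfl | rfl
    · exact Or.inl hx
    · exact Or.inr hx
  · rintro (h | h)
    · exact ⟨a, (hp a).2 (Or.inl rfl), h⟩
    · exact ⟨b, (hp b).2 (Or.inr rfl), h⟩

theorem exists_finite_set {S : Set M} (hS : S.Finite) : ∃ F, ∀ x, E x F ↔ x ∈ S := by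
  induction S, hS using Set.Finite.induction_on with
  | empty =>
    obtain ⟨e, he⟩ := exists_empty zf
    exact ⟨e, fun x => ⟨fun h => absurd h (he x), fun h => h.elim⟩⟩
  | @insert a s _ _ ih =>
    obtain ⟨F, hF⟩ := ih
    obtain ⟨t, ht⟩ := exists_sing zf a
    obtain ⟨c, hc⟩ := exists_union zf t F
    exact ⟨c, fun x => by rw [hc, ht x, hF, Set.mem_insert_iff]⟩

theorem exists_rel (A B : M) (R : M → M → Prop)
    [Dfn E fun v => ∃ x y, E x A ∧ E y B ∧ IsPair E (v 0) x y ∧ R x y] :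
    ∃ f, (∀ p, E p f → ∃ x y, E x A ∧ E y B ∧ IsPair E p x y) ∧
      ∀ x y, App E f x y ↔ E x A ∧ E y B ∧ R x y := by
  obtain ⟨U, hU⟩ := exists_union zf A B
  obtain ⟨P1, h1⟩ := zf.powerset U
  obtain ⟨P2, h2⟩ := zf.powerset P1
  obtain ⟨f, hf⟩ := zf.sep P2 fun p => ∃ x y, E x A ∧ E y B ∧ IsPair E p x y ∧ R x y
  refine ⟨f, fun p hp => ?_, fun x y => ⟨?_, ?_⟩⟩
  · obtain ⟨_, x, y, hx, hy, h, _⟩ := (hf p).1 hp
    exact ⟨x, y, hx, hy, h⟩
  · rintro ⟨p, hp, h⟩
    obtain ⟨_, x', y', hx, hy, h', hR⟩ := (hf p).1 hp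
    obtain ⟨rfl, rfl⟩ := pair_inj zf h h'
    exact ⟨hx, hy, hR⟩
  · rintro ⟨hx, hy, hR⟩
    obtain ⟨p, hp⟩ := exists_pair zf x y
    refine ⟨p, (hf p).2 ⟨(h2 p).2 fun z hz => (h1 z).2 fun t ht => (hU t).2 ?_,
      x, y, hx, hy, hp, hR⟩, hp⟩
    rcases (hp z).1 hz with h | h
    · exact Or.inl ((h t).1 ht ▸ hx)
    · rcases (h t).1 ht with rfl | rfl
      · exact Or.inl hx
      · exact Or.inr hy

theorem IsFun.mem {f A B x y : M} (hf : IsFun E f A B) (h : App E f x y) : E x A ∧ E y B := by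
  obtain ⟨p, hp, h1⟩ := h
  obtain ⟨x', y', hx, hy, h2⟩ := hf.1 p hp
  obtain ⟨rfl, rfl⟩ := pair_inj zf h1 h2
  exact ⟨hx, hy⟩

variable (cd : CohenData E)

theorem nat_inj {m n : ℕ} (h : cd.nat m = cd.nat n) : m = n := by
  rcases lt_trichotomy m n with h1 | h1 | h1
  · exact absurd ((cd.mem_nat _ n).2 ⟨m, h1, h.symm⟩) (not_mem_self zf (cd.nat n))
  · exact h1
  · exact absurd ((cd.mem_nat _ m).2 ⟨n, h1, h⟩) (not_mem_self zf (cd.nat m))

omit zf in
theorem nat_succ (n : ℕ) (z : M) : E z (cd.nat (n + 1)) ↔ E z (cd.nat n) ∨ z = cd.nat n := by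
  rw [cd.mem_nat, cd.mem_nat]
  constructor
  · rintro ⟨m, hm, rfl⟩
    rcases Nat.lt_succ_iff_lt_or_eq.1 hm with h | rfl
    · exact Or.inl ⟨m, h, rfl⟩
    · exact Or.inr rfl
  · rintro (⟨m, hm, rfl⟩ | rfl)
    · exact ⟨m, by omega, rfl⟩
    · exact ⟨n, by omega, rfl⟩

omit zf in
theorem nat_zero : IsEmptySet E (cd.nat 0) := fun x hx => by
  obtain ⟨m, hm, _⟩ := (cd.mem_nat _ _).1 hx
  omega

theorem isOmega_w : IsOmega E cd.w := by
  refine ⟨⟨⟨_, (cd.mem_w _).2 ⟨0, rfl⟩, nat_zero cd⟩, fun x hx => ?_⟩, fun w' hw' x hx => ?_⟩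
  · obtain ⟨n, rfl⟩ := (cd.mem_w _).1 hx
    exact ⟨_, (cd.mem_w _).2 ⟨n + 1, rfl⟩, nat_succ cd n⟩
  · obtain ⟨n, rfl⟩ := (cd.mem_w _).1 hx
    clear hx
    induction n with
    | zero =>
      obtain ⟨e, he, he'⟩ := hw'.1
      exact empty_unique zf he' (nat_zero cd) ▸ he
    | succ n ih =>
      obtain ⟨y, hy, h⟩ := hw'.2 _ ih
      have : y = cd.nat (n + 1) := zf.extensionality _ _ fun z => (h z).trans (nat_succ cd n z).symm
      exact this ▸ hy

theorem omega_eq {w : M} (h : IsOmega E w) : w = cd.w :=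
  zf.extensionality _ _ fun x => ⟨h.2 _ (isOmega_w zf cd).1 x, (isOmega_w zf cd).2 _ h.1 x⟩

include cd in
theorem isFin_iff (F : M) : IsFin E F ↔ {x | E x F}.Finite := by
  constructor
  · rintro ⟨w, n, f, hw, hn, hf⟩
    rw [omega_eq zf cd hw] at hn
    obtain ⟨k, rfl⟩ := (cd.mem_w _).1 hn
    refine ((Set.finite_lt_nat k).biUnion (t := fun m => {y | App E f (cd.nat m) y})
      fun m _ => Set.Subsingleton.finite fun y hy y' hy' => hf.1.2.2 _ _ _ hy hy').subset ?_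
    intro y hy
    obtain ⟨x, hx⟩ := hf.2.2 y hy
    obtain ⟨m, hm, rfl⟩ := (cd.mem_nat _ _).1 (hf.1.mem zf hx).1
    exact Set.mem_biUnion hm hx
  · intro h
    have := h.to_subtype
    obtain ⟨k, ⟨e⟩⟩ := Finite.exists_equiv_fin {x | E x F}
    choose p hp using fun i : Fin k => exists_pair zf (cd.nat i) (e.symm i).1
    obtain ⟨f, hf⟩ := exists_finite_set zf (Set.finite_range p)
    have hA : ∀ x y, App E f x y ↔ ∃ i : Fin k, x = cd.nat i ∧ y = (e.symm i).1 := by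
      intro x y
      constructor
      · rintro ⟨q, hq, h1⟩
        obtain ⟨i, rfl⟩ := (hf q).1 hq
        exact ⟨i, pair_inj zf h1 (hp i)⟩
      · rintro ⟨i, rfl, rfl⟩
        exact ⟨p i, (hf _).2 ⟨i, rfl⟩, hp i⟩
    refine ⟨cd.w, cd.nat k, f, isOmega_w zf cd, (cd.mem_w _).2 ⟨k, rfl⟩, ⟨?_, ?_, ?_⟩, ?_, ?_⟩
    · intro q hq
      obtain ⟨i, rfl⟩ := (hf q).1 hq
      exact ⟨_, _, (cd.mem_nat _ _).2 ⟨i, i.2, rfl⟩, (e.symm i).2, hp i⟩
    · intro x hx
      obtain ⟨m, hm, rfl⟩ := (cd.mem_nat _ _).1 hx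
      exact ⟨_, (hA _ _).2 ⟨⟨m, hm⟩, rfl, rfl⟩⟩
    · intro x y y' h1 h2
      obtain ⟨i, rfl, rfl⟩ := (hA _ _).1 h1
      obtain ⟨j, h3, rfl⟩ := (hA _ _).1 h2
      rw [Fin.ext (nat_inj zf cd h3)]
    · intro x x' y h1 h2
      obtain ⟨i, rfl, rfl⟩ := (hA _ _).1 h1
      obtain ⟨j, rfl, h3⟩ := (hA _ _).1 h2
      rw [e.symm.injective (Subtype.ext h3)]
    · intro y hy
      exact ⟨_, (hA _ _).2 ⟨e ⟨y, hy⟩, rfl, by simp⟩⟩

end Pool.Agent.Work.MP_63c7e0_lc
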