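import Pool.Agent.Lib.ZFModel.Defs

/-! The notions of the problem, interpreted inside a structure `(M, E)` for the language of set
theory.  Every quantifier ranges over `M` and the only primitive relations are `E` and `=`, so
each definition is the truth in `(M, E)` of the usual first-order definition. -/

namespace Pool.Agent.Work.MP_63c7e0_lc

universe u
variable {M : Type u} (E : M → M → Prop)

/-- `a ⊆ b`. -/
def Sub (a b : M) : Prop := ∀ x, E x a → E x b

/-- `e` is the empty set. -/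
def IsEmptySet (e : M) : Prop := ∀ x, ¬ E x e

/-- `s = {a}`. -/
def IsSing (s a : M) : Prop := ∀ x, E x s ↔ x = a

/-- `p` is the Kuratowski ordered pair `{{a}, {a, b}}`. -/
def IsPair (p a b : M) : Prop :=
  ∀ z, E z p ↔ (IsSing E z a ∨ ∀ t, E t z ↔ t = a ∨ t = b)

/-- The ordered pair `(x, y)` belongs to `f`. -/
def App (f x y : M) : Prop := ∃ p, E p f ∧ IsPair E p x y

/-- `f` is a function from `A` to `B`. -/
def IsFun (f A B : M) : Prop :=
  (∀ p, E p f → ∃ x y, E x A ∧ E y B ∧ IsPair E p x y) ∧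
  (∀ x, E x A → ∃ y, App E f x y) ∧
  ∀ x y y', App E f x y → App E f x y' → y = y'

/-- `f` is a bijection from `A` onto `B`. -/
def IsBij (f A B : M) : Prop :=
  IsFun E f A B ∧ (∀ x x' y, App E f x y → App E f x' y → x = x') ∧
  ∀ y, E y B → ∃ x, App E f x y

/-- `w` contains `∅` and is closed under `x ↦ x ∪ {x}`. -/
def IsInductive (w : M) : Prop :=
  (∃ e, E e w ∧ IsEmptySet E e) ∧ ∀ x, E x w → ∃ y, E y w ∧ ∀ z, E z y ↔ E z x ∨ z = x

/-- `w` is `ω = ℕ`, the least inductive set. -/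
def IsOmega (w : M) : Prop := IsInductive E w ∧ ∀ w', IsInductive E w' → Sub E w w'

/-- `t` is `2 = {0, 1} = {∅, {∅}}`. -/
def IsTwo (t : M) : Prop :=
  ∀ z, E z t ↔ IsEmptySet E z ∨ ∃ e, IsEmptySet E e ∧ IsSing E z e

/-- `F` is finite: in bijection with a natural number. -/
def IsFin (F : M) : Prop := ∃ w n f, IsOmega E w ∧ E n w ∧ IsBij E f n F

/-- `τ` is a topology on `X`. -/
def IsTop (X τ : M) : Prop :=
  (∀ U, E U τ → Sub E U X) ∧ E X τ ∧
  (∀ U V W, E U τ → E V τ → (∀ x, E x W ↔ E x U ∧ E x V) → E W τ) ∧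
  ∀ S W, Sub E S τ → (∀ x, E x W ↔ ∃ U, E U S ∧ E x U) → E W τ

/-- `C` is a closed subset of the space `(X, τ)`. -/
def IsClosedIn (X τ C : M) : Prop :=
  Sub E C X ∧ ∃ U, E U τ ∧ ∀ x, E x U ↔ E x X ∧ ¬ E x C

/-- `σ` is the subspace topology induced by `τ` on `A`. -/
def IsSubTop (τ A σ : M) : Prop :=
  ∀ V, E V σ ↔ ∃ U, E U τ ∧ ∀ x, E x V ↔ E x U ∧ E x A

/-- `δ` is the discrete topology on `Y`. -/
def IsDiscrete (Y δ : M) : Prop := ∀ V, E V δ ↔ Sub E V Y

/-- `f` is a continuous map from `(X, τ)` to `(Y, σ)`. -/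
def IsCont (f X τ Y σ : M) : Prop :=
  IsFun E f X Y ∧
  ∀ V U, E V σ → (∀ x, E x U ↔ ∃ y, E y V ∧ App E f x y) → E U τ

/-- `h` is a homeomorphism from `(X, τ)` onto `(Y, σ)`: a bijection such that a subset `U` of `X`
is open if and only if its image `V` is open. -/
def IsHomeo (h X τ Y σ : M) : Prop :=
  IsBij E h X Y ∧
  ∀ U V, Sub E U X → (∀ y, E y V ↔ ∃ x, E x U ∧ App E h x y) → (E U τ ↔ E V σ)

/-- `(P, ρ)` is the product space `N ^ J` of copies of the discrete space `N`: `P` is the set of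
functions from `J` to `N`, and `U ⊆ P` is open if and only if for every `g ∈ U` there is a finite
`F ⊆ J` such that `U` contains every member of `P` that agrees with `g` on `F`. -/
def IsPower (N J P ρ : M) : Prop :=
  (∀ g, E g P ↔ IsFun E g J N) ∧
  ∀ U, E U ρ ↔ Sub E U P ∧ ∀ g, E g U → ∃ F, Sub E F J ∧ IsFin E F ∧
    ∀ g', E g' P → (∀ j y, E j F → App E g j y → App E g' j y) → E g' U

/-- `(X, τ)` is `ℕ`-compact: homeomorphic to a closed subspace of some power `ℕ ^ J`. -/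
def NCompact (X τ : M) : Prop :=
  ∃ w J P ρ C σ h, IsOmega E w ∧ IsPower E w J P ρ ∧ IsClosedIn E P ρ C ∧
    IsSubTop E ρ C σ ∧ IsHomeo E h X τ C σ

/-- The subspace `(A, σ)` of `(X, τ)` is `2`-embedded: every continuous map from it to the
discrete space `2` extends to a continuous map from `(X, τ)` to `2`. -/
def TwoEmbedded (A σ X τ : M) : Prop :=
  ∀ t δ f, IsTwo E t → IsDiscrete E t δ → IsCont E f A σ t δ →
    ∃ g, IsCont E g X τ t δ ∧ ∀ x y, App E f x y → App E g x y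

/-- `(X, τ)` has a base consisting of clopen sets. -/
def ZeroDim (X τ : M) : Prop :=
  ∃ B, (∀ b, E b B → E b τ ∧ IsClosedIn E X τ b) ∧
    ∀ U x, E U τ → E x U → ∃ b, E b B ∧ E x b ∧ Sub E b U

/-- `(X, τ)` is a `T₁`-space: singletons are closed. -/
def IsT1 (X τ : M) : Prop := ∀ x s, E x X → IsSing E s x → IsClosedIn E X τ s

/-- `X` is the union of a sequence `(A n)`, `n ∈ ω`, of subspaces of `(X, τ)`, each of them
`ℕ`-compact and `2`-embedded in `(X, τ)`. -/
def IsCountableUnion (X τ : M) : Prop :=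
  ∃ w R A, IsOmega E w ∧ IsFun E A w R ∧
    (∀ n a, App E A n a → Sub E a X ∧
      ∃ σ, IsSubTop E τ a σ ∧ NCompact E a σ ∧ TwoEmbedded E a σ X τ) ∧
    ∀ x, E x X → ∃ n a, App E A n a ∧ E x a

end Pool.Agent.Work.MP_63c7e0_lc
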