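import Pool.Agent.Work.MP_63c7e0_lc.Basic

/-! The space `ω` with the topology generated by the Cohen reals and their complements. -/

namespace Pool.Agent.Work.MP_63c7e0_lc
open Pool.Agent.Lib.ZFModel

variable {M : Type 1} {E : M → M → Prop}

set_option synthInstance.maxSize 100000

instance [Nonempty M] (a b c : (ℕ → M) → M) [Trm a] [Trm b] [Trm c] :
    Dfn E (fun v => IsClosedIn E (a v) (b v) (c v)) := by unfold IsClosedIn; infer_instance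

variable (zf : IsZF E) (cd : CohenData E)
include zf

theorem nat_mem_d (n i : ℕ) : E (cd.nat n) (cd.d i) ↔ cd.g i n := by
  rw [cd.mem_d]
  exact ⟨fun ⟨m, hm, h⟩ => nat_inj zf cd h ▸ hm, fun h => ⟨n, h, rfl⟩⟩

theorem exists_finD (s : Finset ℕ) : ∃ F, ∀ x, E x F ↔ ∃ i ∈ s, x = cd.d i := by
  obtain ⟨F, hF⟩ := exists_finite_set zf (s.finite_toSet.image cd.d)
  exact ⟨F, fun x => (hF x).trans ⟨fun ⟨i, hi, h⟩ => ⟨i, hi, h.symm⟩, fun ⟨i, hi, h⟩ => ⟨i, hi, h.symm⟩⟩⟩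

theorem finD_iff (F : M) :
    (Sub E F cd.D ∧ IsFin E F) ↔ ∃ s : Finset ℕ, ∀ x, E x F ↔ ∃ i ∈ s, x = cd.d i := by
  classical
  rw [isFin_iff zf cd]
  constructor
  · rintro ⟨h1, h2⟩
    have : ∀ x, ∃ i, E x F → x = cd.d i := by
      intro x
      by_cases hx : E x F
      · obtain ⟨i, hi⟩ := (cd.mem_D x).1 (h1 x hx); exact ⟨i, fun _ => hi⟩
      · exact ⟨0, fun h => absurd h hx⟩
    choose f hf using this
    refine ⟨h2.toFinset.image f, fun x => ⟨fun hx => ⟨f x, ?_, hf x hx⟩, ?_⟩⟩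
    · exact Finset.mem_image_of_mem _ (h2.mem_toFinset.2 hx)
    · rintro ⟨i, hi, rfl⟩
      obtain ⟨y, hy, rfl⟩ := Finset.mem_image.1 hi
      have hy' : E y F := h2.mem_toFinset.1 hy
      exact hf y hy' ▸ hy'
  · rintro ⟨s, hs⟩
    refine ⟨fun x hx => ?_, (s.finite_toSet.image cd.d).subset fun x hx => ?_⟩
    · obtain ⟨i, _, h⟩ := (hs x).1 hx; exact (cd.mem_D x).2 ⟨i, h⟩
    · obtain ⟨i, hi, h⟩ := (hs x).1 hx; exact ⟨i, hi, h.symm⟩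

theorem agree_iff {F : M} {s : Finset ℕ} (hF : ∀ x, E x F ↔ ∃ i ∈ s, x = cd.d i) (m n : ℕ) :
    (∀ d, E d F → (E (cd.nat m) d ↔ E (cd.nat n) d)) ↔ ∀ i ∈ s, (cd.g i m ↔ cd.g i n) := by
  constructor
  · intro h i hi
    rw [← nat_mem_d zf, ← nat_mem_d zf]
    exact h _ ((hF _).2 ⟨i, hi, rfl⟩)
  · intro h d hd
    obtain ⟨i, hi, rfl⟩ := (hF _).1 hd
    rw [nat_mem_d zf, nat_mem_d zf]
    exact h i hi

omit zf in
/-- The external description of the topology. -/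
def IsTau (τ : M) : Prop := ∀ U, E U τ ↔ Sub E U cd.w ∧ ∀ n, E (cd.nat n) U →
  ∃ s : Finset ℕ, ∀ m, (∀ i ∈ s, (cd.g i m ↔ cd.g i n)) → E (cd.nat m) U

theorem exists_tau : ∃ τ, IsTau cd τ := by
  have := zf.nonempty
  obtain ⟨Pw, hP⟩ := zf.powerset cd.w
  obtain ⟨τ, hτ⟩ := zf.sep Pw fun U => ∀ n, E n U → ∃ F, (Sub E F cd.D ∧ IsFin E F) ∧
    ∀ m, E m cd.w → (∀ d, E d F → (E m d ↔ E n d)) → E m U
  refine ⟨τ, fun U => ?_⟩
  rw [hτ, hP]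
  refine and_congr_right fun hU => ⟨fun h n hn => ?_, fun h x hx => ?_⟩
  · obtain ⟨F, h1, h2⟩ := h _ hn
    obtain ⟨s, hs⟩ := (finD_iff zf cd F).1 h1
    exact ⟨s, fun m hm => h2 _ ((cd.mem_w _).2 ⟨m, rfl⟩) ((agree_iff zf cd hs m n).2 hm)⟩
  · obtain ⟨n, rfl⟩ := (cd.mem_w _).1 (hU x hx)
    obtain ⟨s, hs⟩ := h n hx
    obtain ⟨F, hF⟩ := exists_finD zf cd s
    refine ⟨F, (finD_iff zf cd F).2 ⟨s, hF⟩, fun y hy h1 => ?_⟩
    obtain ⟨m, rfl⟩ := (cd.mem_w _).1 hy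
    exact hs m ((agree_iff zf cd hF m n).1 h1)

variable {cd} {τ : M} (hτ : IsTau cd τ)
include hτ

omit zf in
theorem w_open : E cd.w τ :=
  (hτ _).2 ⟨fun _ h => h, fun _ _ => ⟨∅, fun m _ => (cd.mem_w _).2 ⟨m, rfl⟩⟩⟩

omit zf in
theorem isTop : IsTop E cd.w τ := by
  refine ⟨fun U hU => ((hτ U).1 hU).1, w_open hτ, fun U V W hU hV hW => ?_, fun S W hS hW => ?_⟩
  · obtain ⟨h1, h2⟩ := (hτ U).1 hU
    obtain ⟨_, h4⟩ := (hτ V).1 hV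
    refine (hτ W).2 ⟨fun x hx => h1 x ((hW x).1 hx).1, fun n hn => ?_⟩
    obtain ⟨s, hs⟩ := h2 n ((hW _).1 hn).1
    obtain ⟨t, ht⟩ := h4 n ((hW _).1 hn).2
    exact ⟨s ∪ t, fun m hm => (hW _).2 ⟨hs m fun i hi => hm i (Finset.mem_union_left _ hi),
      ht m fun i hi => hm i (Finset.mem_union_right _ hi)⟩⟩
  · refine (hτ W).2 ⟨fun x hx => ?_, fun n hn => ?_⟩
    · obtain ⟨U, hU, hx⟩ := (hW x).1 hx
      exact ((hτ U).1 (hS U hU)).1 x hx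
    · obtain ⟨U, hU, hx⟩ := (hW _).1 hn
      obtain ⟨s, hs⟩ := ((hτ U).1 (hS U hU)).2 n hx
      exact ⟨s, fun m hm => (hW _).2 ⟨U, hU, hs m hm⟩⟩

theorem zeroDim : ZeroDim E cd.w τ := by
  have := zf.nonempty
  obtain ⟨B, hB⟩ := zf.sep τ fun b => IsClosedIn E cd.w τ b
  refine ⟨B, fun b hb => (hB b).1 hb, fun U x hU hx => ?_⟩
  obtain ⟨h1, h2⟩ := (hτ U).1 hU
  obtain ⟨n, rfl⟩ := (cd.mem_w _).1 (h1 x hx)
  obtain ⟨s, hs⟩ := h2 n hx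
  obtain ⟨F, hF⟩ := exists_finD zf cd s
  obtain ⟨b, hb⟩ := zf.sep cd.w fun m => ∀ d, E d F → (E m d ↔ E (cd.nat n) d)
  obtain ⟨c, hc⟩ := zf.sep cd.w fun m => ¬ E m b
  have hb' : ∀ m, E (cd.nat m) b ↔ ∀ i ∈ s, (cd.g i m ↔ cd.g i n) := fun m => by
    rw [hb, agree_iff zf cd hF]
    exact ⟨fun h => h.2, fun h => ⟨(cd.mem_w _).2 ⟨m, rfl⟩, h⟩⟩
  refine ⟨b, (hB b).2 ⟨(hτ b).2 ⟨fun x hx => ((hb x).1 hx).1, fun m hm => ⟨s, fun k hk => ?_⟩⟩,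
    fun x hx => ((hb x).1 hx).1, c, (hτ c).2 ⟨fun x hx => ((hc x).1 hx).1,
      fun m hm => ⟨s, fun k hk => ?_⟩⟩, hc⟩, (hb' n).2 fun _ _ => Iff.rfl, fun x hx => ?_⟩
  · exact (hb' k).2 fun i hi => (hk i hi).trans ((hb' m).1 hm i hi)
  · refine (hc _).2 ⟨(cd.mem_w _).2 ⟨k, rfl⟩, fun h => ((hc _).1 hm).2 ?_⟩
    exact (hb' m).2 fun i hi => (hk i hi).symm.trans ((hb' k).1 h i hi)
  · obtain ⟨m, rfl⟩ := (cd.mem_w _).1 ((hb x).1 hx).1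
    exact hs m ((hb' m).1 hx)

theorem isT1 : IsT1 E cd.w τ := by
  have := zf.nonempty
  intro x s hx hs
  obtain ⟨c, hc⟩ := zf.sep cd.w fun m => ¬ E m s
  refine ⟨fun y hy => (hs y).1 hy ▸ hx, c, (hτ c).2 ⟨fun y hy => ((hc y).1 hy).1,
    fun m hm => ?_⟩, hc⟩
  obtain ⟨n, rfl⟩ := (cd.mem_w _).1 hx
  have hne : n ≠ m := fun h => ((hc _).1 hm).2 ((hs _).2 (h ▸ rfl))
  obtain ⟨i, h1, h2⟩ := cd.sep n m hne
  refine ⟨{i}, fun k hk => (hc _).2 ⟨(cd.mem_w _).2 ⟨k, rfl⟩, fun h => h2 ?_⟩⟩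
  rw [← hk i (Finset.mem_singleton_self i), nat_inj zf cd ((hs _).1 h)]
  exact h1

omit hτ in
theorem nCompact_sing (cd : CohenData E) {a x σ : M} (ha : IsSing E a x)
    (hσ : ∀ V, E V σ ↔ Sub E V a) : NCompact E a σ := by
  have := zf.nonempty
  obtain ⟨e, he⟩ := exists_empty zf
  obtain ⟨P, hP⟩ := exists_sing zf e
  obtain ⟨ρ, hρ⟩ := zf.powerset P
  obtain ⟨h, h1, h2⟩ := exists_rel zf a P fun x _ => x = x
  have hA : ∀ f, IsEmptySet E f → ∀ x y, ¬ App E f x y := fun f hf x y ⟨p, hp, _⟩ => hf p hp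
  refine ⟨cd.w, e, P, ρ, P, ρ, h, isOmega_w zf cd, ⟨fun g => ?_, fun U => ?_⟩,
    ⟨fun _ h => h, e, (hρ e).2 fun y hy => absurd hy (he y), fun y => ?_⟩, fun V => ?_,
    ⟨⟨h1, fun y hy => ⟨e, (h2 _ _).2 ⟨hy, (hP e).2 rfl, rfl⟩⟩, fun y z z' hz hz' => ?_⟩,
      fun y y' z hz hz' => ?_, fun y hy => ⟨x, (h2 _ _).2 ⟨(ha x).2 rfl, hy, rfl⟩⟩⟩,
    fun U V hU hV => ?_⟩
  · rw [hP g]
    constructor
    · rintro rfl
      exact ⟨fun p hp => absurd hp (he p), fun x hx => absurd hx (he x),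
        fun x y _ h => absurd h (hA _ he x y)⟩
    · intro hg
      refine empty_unique zf (fun p hp => ?_) he
      obtain ⟨x, _, hx, _⟩ := hg.1 p hp
      exact he x hx
  · rw [hρ]
    refine ⟨fun hU => ⟨hU, fun g hg => ⟨e, fun _ h => h, ?_, fun g' hg' _ => ?_⟩⟩, fun h => h.1⟩
    · rw [isFin_iff zf cd]
      exact Set.finite_empty.subset fun y hy => he y hy
    · rw [(hP _).1 hg', ← (hP _).1 (hU g hg)]; exact hg
  · exact ⟨fun h => absurd h (he y), fun h => absurd h.1 h.2⟩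
  · rw [hρ]
    exact ⟨fun hV => ⟨V, (hρ V).2 hV, fun y => ⟨fun h => ⟨h, hV y h⟩, fun h => h.1⟩⟩,
      fun ⟨U, _, h⟩ y hy => ((h y).1 hy).2⟩
  · rw [(hP _).1 ((h2 _ _).1 hz).2.1, (hP _).1 ((h2 _ _).1 hz').2.1]
  · rw [(ha _).1 ((h2 _ _).1 hz).1, (ha _).1 ((h2 _ _).1 hz').1]
  · refine iff_of_true ((hσ U).2 hU) ((hρ V).2 fun y hy => ?_)
    obtain ⟨z, _, hz⟩ := (hV y).1 hy
    exact ((h2 _ _).1 hz).2.1

theorem twoEmbedded_sing {a x σ : M} (hx : E x cd.w) (ha : IsSing E a x) :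
    TwoEmbedded E a σ cd.w τ := by
  have := zf.nonempty
  intro t δ f _ _ hf
  obtain ⟨k, hk⟩ := hf.1.2.1 x ((ha x).2 rfl)
  have hkt := (hf.1.mem zf hk).2
  obtain ⟨g, h1, h2⟩ := exists_rel zf cd.w t fun _ y => y = k
  refine ⟨g, ⟨⟨h1, fun y hy => ⟨k, (h2 _ _).2 ⟨hy, hkt, rfl⟩⟩, fun y z z' hz hz' => ?_⟩,
    fun V U _ hU => (hτ U).2 ⟨fun y hy => ?_, fun n hn => ⟨∅, fun m _ => ?_⟩⟩⟩, fun y z hz => ?_⟩
  · rw [((h2 _ _).1 hz).2.2, ((h2 _ _).1 hz').2.2]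
  · obtain ⟨z, _, hz⟩ := (hU y).1 hy
    exact ((h2 _ _).1 hz).1
  · obtain ⟨z, hzV, hz⟩ := (hU _).1 hn
    exact (hU _).2 ⟨z, hzV, (h2 _ _).2 ⟨(cd.mem_w _).2 ⟨m, rfl⟩, ((h2 _ _).1 hz).2⟩⟩
  · have hy := (ha y).1 (hf.1.mem zf hz).1
    subst hy
    exact (h2 _ _).2 ⟨hx, (hf.1.mem zf hz).2, hf.1.2.2 _ _ _ hz hk⟩

theorem isCountableUnion : IsCountableUnion E cd.w τ := by
  have := zf.nonempty
  obtain ⟨R, hR⟩ := zf.powerset cd.w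
  obtain ⟨A, h1, h2⟩ := exists_rel zf cd.w R fun n a => IsSing E a n
  have h3 : ∀ x, E x cd.w → ∃ a, App E A x a ∧ E x a := by
    intro x hx
    obtain ⟨a, ha⟩ := exists_sing zf x
    exact ⟨a, (h2 _ _).2 ⟨hx, (hR a).2 fun y hy => (ha y).1 hy ▸ hx, ha⟩, (ha x).2 rfl⟩
  refine ⟨cd.w, R, A, isOmega_w zf cd, ⟨h1, fun x hx => ?_, fun x y y' hy hy' => ?_⟩,
    fun n a h => ?_, fun x hx => ⟨x, h3 x hx⟩⟩
  · obtain ⟨a, ha, _⟩ := h3 x hx; exact ⟨a, ha⟩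
  · exact sing_unique zf ((h2 _ _).1 hy).2.2 ((h2 _ _).1 hy').2.2
  · obtain ⟨hn, haR, ha⟩ := (h2 _ _).1 h
    obtain ⟨σ, hσ⟩ := zf.powerset a
    refine ⟨(hR a).1 haR, σ, fun V => ?_, nCompact_sing zf cd ha hσ, twoEmbedded_sing zf hτ hn ha⟩
    rw [hσ]
    constructor
    · intro hV
      by_cases hnV : E n V
      · refine ⟨cd.w, w_open hτ, fun y => ⟨fun hy => ⟨(hR a).1 haR y (hV y hy), hV y hy⟩, ?_⟩⟩
        intro hy; exact (ha y).1 hy.2 ▸ hnV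
      · obtain ⟨e, he⟩ := exists_empty zf
        refine ⟨e, (hτ e).2 ⟨fun y hy => absurd hy (he y), fun m hm => absurd hm (he _)⟩,
          fun y => ⟨fun hy => absurd ((ha y).1 (hV y hy) ▸ hy) hnV, fun hy => absurd hy.1 (he y)⟩⟩
    · rintro ⟨U, _, h⟩ y hy
      exact ((h y).1 hy).2

theorem not_nCompact : ¬ NCompact E cd.w τ := by
  classical
  have := zf.nonempty
  rintro ⟨w, J, P, ρ, C, σ, h, hw, ⟨hP, hρ⟩, hC, hσ, hb, hh⟩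
  rw [omega_eq zf cd hw] at hP
  clear hw w
  have hnw : ∀ n, E (cd.nat n) cd.w := fun n => (cd.mem_w _).2 ⟨n, rfl⟩
  choose y hy using fun n => hb.1.2.1 _ (hnw n)
  have hyC : ∀ n, E (y n) C := fun n => (hb.1.mem zf (hy n)).2
  have hyF : ∀ n, IsFun E (y n) J cd.w := fun n => (hP _).1 (hC.1 _ (hyC n))
  -- continuity of the coordinates
  have cont : ∀ j, E j J → ∀ n, ∃ s : Finset ℕ, ∀ m, (∀ i ∈ s, (cd.g i m ↔ cd.g i n)) →
      ∀ k, App E (y n) j k → App E (y m) j k := by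
    intro j hj n
    obtain ⟨k, hk⟩ := (hyF n).2.1 j hj
    obtain ⟨V', hV'⟩ := zf.sep P fun z => App E z j k
    obtain ⟨V, hV⟩ := zf.sep C fun z => App E z j k
    obtain ⟨U, hU⟩ := zf.sep cd.w fun m => ∃ z, E z V ∧ App E h m z
    have h1 : E V' ρ := by
      refine (hρ V').2 ⟨fun z hz => ((hV' z).1 hz).1, fun z hz => ?_⟩
      obtain ⟨F, hF⟩ := exists_sing zf j
      refine ⟨F, fun t ht => (hF t).1 ht ▸ hj, ?_, fun z' hz' h2 => (hV' z').2 ⟨hz', ?_⟩⟩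
      · rw [isFin_iff zf cd]
        exact (Set.finite_singleton j).subset fun t ht => (hF t).1 ht
      · exact h2 j k ((hF j).2 rfl) ((hV' z).1 hz).2
    have h2 : E V σ := (hσ V).2 ⟨V', h1, fun z => by
      rw [hV, hV']; exact ⟨fun h => ⟨⟨hC.1 z h.1, h.2⟩, h.1⟩, fun h => ⟨h.2, h.1.2⟩⟩⟩
    have h3 : E U τ := by
      refine (hh U V (fun z hz => ((hU z).1 hz).1) fun z => ⟨fun hz => ?_, ?_⟩).2 h2
      · obtain ⟨x, hx⟩ := hb.2.2 z ((hV z).1 hz).1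
        exact ⟨x, (hU x).2 ⟨(hb.1.mem zf hx).1, z, hz, hx⟩, hx⟩
      · rintro ⟨x, hx, hxz⟩
        obtain ⟨_, z', hz', hxz'⟩ := (hU x).1 hx
        exact hb.1.2.2 _ _ _ hxz' hxz ▸ hz'
    obtain ⟨s, hs⟩ := ((hτ U).1 h3).2 n ((hU _).2 ⟨hnw n, y n, (hV _).2 ⟨hyC n, hk⟩, hy n⟩)
    refine ⟨s, fun m hm k' hk' => ?_⟩
    obtain ⟨_, z, hz, hmz⟩ := (hU _).1 (hs m hm)
    rw [(hyF n).2.2 _ _ _ hk' hk, hb.1.2.2 _ _ _ (hy m) hmz]
    exact ((hV z).1 hz).2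
  -- every coordinate is constant on an intersection of finitely many Cohen reals
  have const : ∀ j, E j J → ∃ (e : Finset ℕ) (k : M), E k cd.w ∧
      ∀ m, (∀ i ∈ e, cd.g i m) → App E (y m) j k := by
    intro j hj
    obtain ⟨e, he⟩ := cd.sym fun F n => ∀ m, E m cd.w → (∀ d, E d F → (E m d ↔ E n d)) →
      ∀ z z' k, App E h n z → App E h m z' → App E z j k → App E z' j k
    obtain ⟨n, hn⟩ := cd.indep e fun _ => True
    obtain ⟨k, hk⟩ := (hyF n).2.1 j hj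
    refine ⟨e, k, ((hyF n).mem zf hk).2, fun m hm => ?_⟩
    obtain ⟨s, hs⟩ := cont j hj n
    obtain ⟨t, ht⟩ := cont j hj m
    obtain ⟨F, hF⟩ := exists_finD zf cd s
    obtain ⟨s', F', hF', h1, h2⟩ := he s t n F hF (by
      intro x hx h1 z z' k hz hz' hk
      obtain ⟨r, rfl⟩ := (cd.mem_w _).1 hx
      rw [hb.1.2.2 _ _ _ hz (hy n)] at hk
      rw [hb.1.2.2 _ _ _ hz' (hy r)]
      exact hs r ((agree_iff zf cd hF r n).1 h1) k hk)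
    obtain ⟨r, hr⟩ := cd.indep (s' ∪ t) fun i => if i ∈ t then cd.g i m else cd.g i n
    have h3 : App E (y r) j k := by
      refine h2 _ (hnw r) ((agree_iff zf cd hF' r n).2 fun i hi => ?_) _ _ k (hy n) (hy r) hk
      rw [hr i (Finset.mem_union_left _ hi)]
      split_ifs with hit
      · exact iff_of_true (hm i (h1 i hi hit)) ((hn i (h1 i hi hit)).2 trivial)
      · rfl
    obtain ⟨k', hk'⟩ := (hyF m).2.1 j hj
    have h4 : App E (y r) j k' := by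
      refine ht r (fun i hi => ?_) k' hk'
      rw [hr i (Finset.mem_union_right _ hi), if_pos hi]
    rwa [(hyF r).2.2 _ _ _ h3 h4]
  -- the limit point
  obtain ⟨z, hz1, hz2⟩ := exists_rel zf J cd.w fun j k => ∃ F, (Sub E F cd.D ∧ IsFin E F) ∧
    ∀ m, E m cd.w → (∀ d, E d F → E m d) → ∀ u, App E h m u → App E u j k
  have hz3 : ∀ j k, App E z j k ↔ E j J ∧ E k cd.w ∧
      ∃ e : Finset ℕ, ∀ m, (∀ i ∈ e, cd.g i m) → App E (y m) j k := by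
    intro j k
    rw [hz2]
    refine and_congr_right fun _ => and_congr_right fun _ => ⟨?_, ?_⟩
    · rintro ⟨F, h1, h2⟩
      obtain ⟨e, he⟩ := (finD_iff zf cd F).1 h1
      refine ⟨e, fun m hm => h2 _ (hnw m) (fun d hd => ?_) _ (hy m)⟩
      obtain ⟨i, hi, rfl⟩ := (he d).1 hd
      exact (nat_mem_d zf cd m i).2 (hm i hi)
    · rintro ⟨e, he⟩
      obtain ⟨F, hF⟩ := exists_finD zf cd e
      refine ⟨F, (finD_iff zf cd F).2 ⟨e, hF⟩, fun x hx h1 u hu => ?_⟩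
      obtain ⟨m, rfl⟩ := (cd.mem_w _).1 hx
      rw [hb.1.2.2 _ _ _ hu (hy m)]
      exact he m fun i hi => (nat_mem_d zf cd m i).1 (h1 _ ((hF _).2 ⟨i, hi, rfl⟩))
  have hzP : E z P := by
    refine (hP z).2 ⟨hz1, fun j hj => ?_, fun j k k' hk hk' => ?_⟩
    · obtain ⟨e, k, h1, h2⟩ := const j hj
      exact ⟨k, (hz3 _ _).2 ⟨hj, h1, e, h2⟩⟩
    · obtain ⟨_, _, e, he⟩ := (hz3 _ _).1 hk
      obtain ⟨_, _, e', he'⟩ := (hz3 _ _).1 hk'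
      obtain ⟨r, hr⟩ := cd.indep (e ∪ e') fun _ => True
      exact (hyF r).2.2 _ _ _ (he r fun i hi => (hr i (Finset.mem_union_left _ hi)).2 trivial)
        (he' r fun i hi => (hr i (Finset.mem_union_right _ hi)).2 trivial)
  -- every neighbourhood of the limit point contains almost all `y m`
  have nb : ∀ W, E W ρ → E z W → ∃ e : Finset ℕ, ∀ m, (∀ i ∈ e, cd.g i m) → E (y m) W := by
    intro W hW hzW
    obtain ⟨F, hFJ, hF, h1⟩ := ((hρ W).1 hW).2 z hzW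
    rw [isFin_iff zf cd] at hF
    have : ∀ j, ∃ e : Finset ℕ, ∀ k, App E z j k → ∀ m, (∀ i ∈ e, cd.g i m) → App E (y m) j k := by
      intro j
      by_cases hj : ∃ k, App E z j k
      · obtain ⟨k, hk⟩ := hj
        obtain ⟨_, _, e, he⟩ := (hz3 _ _).1 hk
        exact ⟨e, fun k' hk' => ((hP z).1 hzP).2.2 _ _ _ hk hk' ▸ he⟩
      · exact ⟨∅, fun k hk => absurd ⟨k, hk⟩ hj⟩
    choose e he using this
    refine ⟨hF.toFinset.biUnion e, fun m hm => h1 _ (hC.1 _ (hyC m)) fun j k hj hk => ?_⟩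
    exact he j k hk m fun i hi => hm i (Finset.mem_biUnion.2 ⟨j, hF.mem_toFinset.2 hj, hi⟩)
  have hzC : E z C := by
    by_contra hc
    obtain ⟨_, W, hW, h1⟩ := hC
    obtain ⟨e, he⟩ := nb W hW ((h1 z).2 ⟨hzP, hc⟩)
    obtain ⟨r, hr⟩ := cd.indep e fun _ => True
    exact ((h1 _).1 (he r fun i hi => (hr i hi).2 trivial)).2 (hyC r)
  obtain ⟨x, hx⟩ := hb.2.2 z hzC
  obtain ⟨n, rfl⟩ := (cd.mem_w _).1 (hb.1.mem zf hx).1
  obtain ⟨i, _, hi⟩ := cd.sep (n + 1) n (Nat.succ_ne_self n)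
  obtain ⟨U, hU⟩ := zf.sep cd.w fun m => ¬ E m (cd.d i)
  obtain ⟨V, hV⟩ := zf.sep C fun u => ∃ m, E m U ∧ App E h m u
  have hU' : ∀ m, E (cd.nat m) U ↔ ¬ cd.g i m := fun m => by
    rw [hU, nat_mem_d zf]; exact ⟨fun h => h.2, fun h => ⟨hnw m, h⟩⟩
  have h1 : E U τ := (hτ U).2 ⟨fun u hu => ((hU u).1 hu).1, fun m hm => ⟨{i}, fun k hk => by
    rw [hU', hk i (Finset.mem_singleton_self i), ← hU']; exact hm⟩⟩
  have h2 : E V σ := by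
    refine (hh U V (fun u hu => ((hU u).1 hu).1) fun u => ?_).1 h1
    rw [hV]
    exact ⟨fun h => h.2, fun ⟨m, hm, hmu⟩ => ⟨(hb.1.mem zf hmu).2, m, hm, hmu⟩⟩
  obtain ⟨W, hW, h3⟩ := (hσ V).1 h2
  obtain ⟨e, he⟩ := nb W hW ((h3 z).1 ((hV z).2 ⟨hzC, _, (hU' n).2 hi, hx⟩)).1
  obtain ⟨r, hr⟩ := cd.indep (insert i e) fun _ => True
  obtain ⟨_, m, hm, hmu⟩ := (hV _).1 ((h3 _).2
    ⟨he r fun j hj => (hr j (Finset.mem_insert_of_mem hj)).2 trivial, hyC r⟩)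
  rw [hb.2.1 _ _ _ hmu (hy r), hU'] at hm
  exact hm ((hr i (Finset.mem_insert_self _ _)).2 trivial)

end Pool.Agent.Work.MP_63c7e0_lc
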